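import Pool.Agent.Helper60.FF.DefsB

set_option autoImplicit false

/-! Module FCT: rational functions all of whose orders are divisible by `m`. -/

namespace Pool.Agent.Helper60.FF

open Polynomial

/-- a polynomial all of whose geometric root multiplicities are divisible by `m` -/
theorem fct_poly {F K : Type} [Field F] [CharZero F] [Field K] [IsAlgClosed K] (f : F →+* K)
    (W : F[X]) (hW : W ≠ 0) (m : ℕ) (h : ∀ v : K, m ∣ (W.map f).rootMultiplicity v) :
    ∃ (b : F) (Z : F[X]), b ≠ 0 ∧ W = C b * Z ^ m := by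
  classical
  have hcount : ∀ g ∈ UniqueFactorizationMonoid.normalizedFactors W,
      m ∣ Multiset.count g (UniqueFactorizationMonoid.normalizedFactors W) := by
    intro g hg
    have hgi := UniqueFactorizationMonoid.irreducible_of_normalized_factor g hg
    have hgn := UniqueFactorizationMonoid.normalize_normalized_factor g hg
    have hfin : FiniteMultiplicity g W := FiniteMultiplicity.of_not_isUnit hgi.not_isUnit hW
    obtain ⟨R, hR, hgR⟩ := hfin.exists_eq_pow_mul_and_not_dvd
    generalize multiplicity g W = n at hR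
    have hdeg : (g.map f).degree ≠ 0 := by
      rw [degree_map]
      exact (degree_pos_of_irreducible hgi).ne'
    obtain ⟨v, hv⟩ := IsAlgClosed.exists_root _ hdeg
    have hg0 : g.map f ≠ 0 := Polynomial.map_ne_zero hgi.ne_zero
    have hv' : (g.map f).eval v = 0 := hv
    have hRv : (R.map f).eval v ≠ 0 := by
      intro h0
      obtain ⟨x, y, hxy⟩ := (hgi.coprime_iff_not_dvd).2 hgR
      have h1 := congrArg (fun P : F[X] => (P.map f).eval v) hxy
      simp only [Polynomial.map_add, Polynomial.map_mul, eval_add, eval_mul, hv', h0, mul_zero,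
        add_zero, Polynomial.map_one, eval_one] at h1
      exact zero_ne_one h1
    have hR0 : R.map f ≠ 0 := by
      intro h0
      rw [h0, eval_zero] at hRv
      exact hRv rfl
    have r1 : (g.map f).rootMultiplicity v = 1 := by
      have h1 := rootMultiplicity_le_one_of_separable (hgi.separable.map (f := f)) v
      have h2 : 0 < (g.map f).rootMultiplicity v := (rootMultiplicity_pos hg0).2 hv
      omega
    have r2 : ((g.map f) ^ n).rootMultiplicity v = n := by
      rw [← count_roots, roots_pow, Multiset.count_nsmul, count_roots, r1, mul_one]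
    have r3 : (R.map f).rootMultiplicity v = 0 := rootMultiplicity_eq_zero hRv
    have r4 : (W.map f).rootMultiplicity v = n := by
      rw [hR, Polynomial.map_mul, Polynomial.map_pow,
        rootMultiplicity_mul (mul_ne_zero (pow_ne_zero n hg0) hR0), r2, r3, add_zero]
    have r5 : Multiset.count g (UniqueFactorizationMonoid.normalizedFactors W) = n := by
      apply UniqueFactorizationMonoid.count_normalizedFactors_eq hgi hgn
      · rw [hR]
        exact dvd_mul_right _ _
      · rw [hR, pow_succ]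
        intro h1
        exact hgR ((mul_dvd_mul_iff_left (pow_ne_zero n hgi.ne_zero)).1 h1)
    rw [r5, ← r4]
    exact h v
  obtain ⟨u, hu⟩ := Multiset.exists_smul_of_dvd_count _ hcount
  have ha := UniqueFactorizationMonoid.prod_normalizedFactors hW
  rw [hu, Multiset.prod_nsmul] at ha
  obtain ⟨c, hc⟩ := ha
  obtain ⟨b, hb, hbc⟩ := Polynomial.isUnit_iff.1 c.isUnit
  refine ⟨b, u.prod, hb.ne_zero, ?_⟩
  rw [hbc, mul_comm]
  exact hc.symm

theorem st_FCT (hO : ST_ORD) : ST_FCT := by
  intro p _ A hA E m hm h hh hov hord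
  obtain ⟨P, Q, hQ, hP1, hQ1, hPQ⟩ := hov
  obtain ⟨omul, _, opow, _, opol⟩ := hO p A
  let F : Subfield A := E.toSubfield.comap A.subtype
  have hFE : ∀ x : A, x ∈ F ↔ (x : ℂ_[p]) ∈ E := fun x => Iff.rfl
  have halg : ∀ R : Polynomial A, R ≠ 0 → algebraMap (Polynomial A) (RatFunc A) R ≠ 0 :=
    fun R hR h0 => hR ((map_eq_zero_iff _ (RatFunc.algebraMap_injective A)).1 h0)
  have hP : P ≠ 0 := by
    rintro rfl
    rw [map_zero] at hPQ
    rcases mul_eq_zero.1 hPQ with h1 | h1
    · exact hh h1
    · exact halg Q hQ h1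
  have hlift : ∀ R : Polynomial A, (∀ j, ((R.coeff j : A) : ℂ_[p]) ∈ E) →
      ∃ R0 : Polynomial F, R0.map F.subtype = R := by
    intro R hR
    rw [← mem_lifts, lifts_iff_coeff_lifts]
    intro n
    exact ⟨⟨R.coeff n, hR n⟩, rfl⟩
  obtain ⟨P0, hP0⟩ := hlift P hP1
  obtain ⟨Q0, hQ0⟩ := hlift Q hQ1
  have hWm : (P0 * Q0 ^ (m - 1)).map F.subtype = P * Q ^ (m - 1) := by
    rw [Polynomial.map_mul, Polynomial.map_pow, hP0, hQ0]
  have hW0 : P0 * Q0 ^ (m - 1) ≠ 0 := by
    intro h0
    rw [h0, Polynomial.map_zero] at hWm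
    exact mul_ne_zero hP (pow_ne_zero _ hQ) hWm.symm
  have hWa : algebraMap (Polynomial A) (RatFunc A) (P * Q ^ (m - 1)) =
      h * (algebraMap (Polynomial A) (RatFunc A) Q) ^ m := by
    rw [map_mul, map_pow, ← hPQ, mul_assoc, ← pow_succ', Nat.sub_add_cancel hm]
  have hdiv : ∀ v : A, m ∣ ((P0 * Q0 ^ (m - 1)).map F.subtype).rootMultiplicity v := by
    intro v
    rw [hWm]
    have h1 := opol v (P * Q ^ (m - 1)) (mul_ne_zero hP (pow_ne_zero _ hQ))
    rw [hWa, omul v _ _ hh (pow_ne_zero _ (halg Q hQ)), opow v _ m (halg Q hQ)] at h1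
    have h2 : (m : ℤ) ∣ ((P * Q ^ (m - 1)).rootMultiplicity v : ℤ) := by
      rw [← h1]
      exact dvd_add (hord v) (dvd_mul_right _ _)
    exact_mod_cast h2
  obtain ⟨b, Z, hb, hZ⟩ := fct_poly F.subtype _ hW0 m hdiv
  have hZ0 : Z.map F.subtype ≠ 0 := by
    intro h0
    have : Z = 0 := (Polynomial.map_eq_zero F.subtype).1 h0
    rw [this, zero_pow hm.ne', mul_zero] at hZ
    exact hW0 hZ
  refine ⟨(b : A), algebraMap (Polynomial A) (RatFunc A) (Z.map F.subtype) /
    algebraMap (Polynomial A) (RatFunc A) Q, (hFE b).1 b.2, ?_, div_ne_zero (halg _ hZ0) (halg _ hQ),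
    ⟨Z.map F.subtype, Q, hQ, ?_, hQ1, div_mul_cancel₀ _ (halg _ hQ)⟩, ?_⟩
  · intro h0
    exact hb (Subtype.ext h0)
  · intro j
    rw [coeff_map]
    exact (hFE _).1 (Z.coeff j).2
  · have e1 : P * Q ^ (m - 1) = C (b : A) * (Z.map F.subtype) ^ m := by
      rw [← hWm, hZ, Polynomial.map_mul, Polynomial.map_pow, map_C]
      rfl
    have e2 : h = algebraMap (Polynomial A) (RatFunc A) (P * Q ^ (m - 1)) /
        (algebraMap (Polynomial A) (RatFunc A) Q) ^ m := by
      rw [hWa, mul_div_cancel_right₀ _ (pow_ne_zero _ (halg Q hQ))]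
    rw [e2, e1, map_mul, map_pow, RatFunc.algebraMap_C, div_pow, mul_div_assoc]

end Pool.Agent.Helper60.FF
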