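import Pool.Agent.Helper60.FF.DefsB

set_option autoImplicit false

/-! Module ORD: properties of the order. -/

namespace Pool.Agent.Helper60.FF

open Polynomial

variable {p : ℕ} [hp : Fact p.Prime]

theorem ord_alg {A : Subfield ℂ_[p]} {Q : Polynomial A} (hQ : Q ≠ 0) :
    algebraMap (Polynomial A) (RatFunc A) Q ≠ 0 := fun h =>
  hQ ((map_eq_zero_iff _ (RatFunc.algebraMap_injective A)).1 h)

/-- the order from any representation as a quotient -/
theorem ord_key {A : Subfield ℂ_[p]} (v : A) {h : RatFunc A} {P Q : Polynomial A} (hP : P ≠ 0)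
    (hQ : Q ≠ 0) (e : h * algebraMap (Polynomial A) (RatFunc A) Q =
      algebraMap (Polynomial A) (RatFunc A) P) :
    ordv A v h = (P.rootMultiplicity v : ℤ) - (Q.rootMultiplicity v : ℤ) := by
  have hd : h.denom ≠ 0 := h.denom_ne_zero
  have h0 : h ≠ 0 := by
    rintro rfl
    rw [zero_mul] at e
    exact ord_alg hP e.symm
  have hn : h.num ≠ 0 := RatFunc.num_ne_zero h0
  have e1 : h.num * Q = P * h.denom := by
    apply RatFunc.algebraMap_injective A
    rw [map_mul, map_mul, ← e]
    have e2 := RatFunc.num_div_denom h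
    rw [div_eq_iff (ord_alg hd)] at e2
    rw [e2]
    ring
  have e3 := congrArg (rootMultiplicity v) e1
  rw [rootMultiplicity_mul (mul_ne_zero hn hQ), rootMultiplicity_mul (mul_ne_zero hP hd)] at e3
  unfold ordv
  omega

theorem st_ORD : ST_ORD := by
  intro p _ A
  have hmul : ∀ (v : A) (g h : RatFunc A), g ≠ 0 → h ≠ 0 →
      ordv A v (g * h) = ordv A v g + ordv A v h := by
    intro v g h hg hh
    have hg1 := RatFunc.num_ne_zero hg
    have hg2 := g.denom_ne_zero
    have hh1 := RatFunc.num_ne_zero hh
    have hh2 := h.denom_ne_zero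
    have e : g * h * algebraMap (Polynomial A) (RatFunc A) (g.denom * h.denom) =
        algebraMap (Polynomial A) (RatFunc A) (g.num * h.num) := by
      rw [map_mul, map_mul]
      have e2 := RatFunc.num_div_denom g
      have e3 := RatFunc.num_div_denom h
      rw [div_eq_iff (ord_alg hg2)] at e2
      rw [div_eq_iff (ord_alg hh2)] at e3
      rw [e2, e3]
      ring
    rw [ord_key v (mul_ne_zero hg1 hh1) (mul_ne_zero hg2 hh2) e,
      rootMultiplicity_mul (mul_ne_zero hg1 hh1), rootMultiplicity_mul (mul_ne_zero hg2 hh2)]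
    unfold ordv
    push_cast
    ring
  have hpol : ∀ (v : A) (P : Polynomial A), P ≠ 0 →
      ordv A v (algebraMap (Polynomial A) (RatFunc A) P) = P.rootMultiplicity v := by
    intro v P hP
    rw [ord_key v hP one_ne_zero (by rw [map_one, mul_one])]
    simp
  refine ⟨hmul, ?_, ?_, ?_, hpol⟩
  · intro v h hh
    have h1 := RatFunc.num_ne_zero hh
    have h2 := h.denom_ne_zero
    rw [ord_key v h2 h1]
    · unfold ordv
      ring
    · have e2 := RatFunc.num_div_denom h
      rw [div_eq_iff (ord_alg h2)] at e2
      rw [e2, ← mul_assoc, inv_mul_cancel₀ hh, one_mul]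
  · intro v h m hh
    induction m with
    | zero =>
      have := hpol v 1 one_ne_zero
      rw [map_one] at this
      rw [pow_zero, this]
      simp
    | succ m ih =>
      rw [pow_succ, hmul v _ _ (pow_ne_zero m hh) hh, ih]
      push_cast
      ring
  · intro h hh
    have h1 := RatFunc.num_ne_zero hh
    have h2 := h.denom_ne_zero
    refine ((Polynomial.finite_setOf_isRoot h1).union (Polynomial.finite_setOf_isRoot h2)).subset ?_
    intro v hv
    by_contra hcon
    rw [Set.mem_union] at hcon
    push Not at hcon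
    apply hv
    have a1 : h.num.rootMultiplicity v = 0 := rootMultiplicity_eq_zero hcon.1
    have a2 : h.denom.rootMultiplicity v = 0 := rootMultiplicity_eq_zero hcon.2
    unfold ordv
    rw [a1, a2]
    rfl

end Pool.Agent.Helper60.FF
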