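import Pool.Agent.Helper60.FF.DefsB

set_option autoImplicit false

/-! Module OVF: the rational functions over `A ∩ E` form a field. -/

namespace Pool.Agent.Helper60.FF

open Polynomial

variable {p : ℕ} [hp : Fact p.Prime]

/-- the elements of `A` in `E` -/
noncomputable def ovf_F (A : Subfield ℂ_[p]) (E : IntermediateField ℚ_[p] ℂ_[p]) : Subfield A :=
  E.toSubfield.comap A.subtype

theorem ovf_mem {A : Subfield ℂ_[p]} {E : IntermediateField ℚ_[p] ℂ_[p]} {x : A} :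
    x ∈ ovf_F A E ↔ (x : ℂ_[p]) ∈ E := Iff.rfl

theorem ovf_mul {A : Subfield ℂ_[p]} {E : IntermediateField ℚ_[p] ℂ_[p]} {P Q : Polynomial A}
    (hP : ∀ j, ((P.coeff j : A) : ℂ_[p]) ∈ E) (hQ : ∀ j, ((Q.coeff j : A) : ℂ_[p]) ∈ E) (j : ℕ) :
    (((P * Q).coeff j : A) : ℂ_[p]) ∈ E := by
  rw [← ovf_mem, coeff_mul]
  exact sum_mem fun x _ => mul_mem (ovf_mem.2 (hP _)) (ovf_mem.2 (hQ _))

theorem ovf_add {A : Subfield ℂ_[p]} {E : IntermediateField ℚ_[p] ℂ_[p]} {P Q : Polynomial A}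
    (hP : ∀ j, ((P.coeff j : A) : ℂ_[p]) ∈ E) (hQ : ∀ j, ((Q.coeff j : A) : ℂ_[p]) ∈ E) (j : ℕ) :
    (((P + Q).coeff j : A) : ℂ_[p]) ∈ E := by
  rw [← ovf_mem, coeff_add]
  exact add_mem (ovf_mem.2 (hP _)) (ovf_mem.2 (hQ _))

theorem ovf_one (A : Subfield ℂ_[p]) (E : IntermediateField ℚ_[p] ℂ_[p]) (j : ℕ) :
    (((1 : Polynomial A).coeff j : A) : ℂ_[p]) ∈ E := by
  rw [← ovf_mem, coeff_one]
  split_ifs
  · exact one_mem _
  · exact zero_mem _

theorem ovf_zero (A : Subfield ℂ_[p]) (E : IntermediateField ℚ_[p] ℂ_[p]) (j : ℕ) :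
    (((0 : Polynomial A).coeff j : A) : ℂ_[p]) ∈ E := by
  rw [← ovf_mem, coeff_zero]
  exact zero_mem _

theorem st_OVF : ST_OVF := by
  intro p _ A E
  have halg : ∀ Q : Polynomial A, Q ≠ 0 → algebraMap (Polynomial A) (RatFunc A) Q ≠ 0 := by
    intro Q hQ h
    exact hQ ((map_eq_zero_iff _ (RatFunc.algebraMap_injective A)).1 h)
  refine ⟨{ carrier := {c | Ov A E c}
            mul_mem' := ?_
            one_mem' := ?_
            add_mem' := ?_
            zero_mem' := ?_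
            neg_mem' := ?_
            inv_mem' := ?_ }, fun c => Iff.rfl⟩
  · rintro c c' ⟨P, Q, hQ, h1, h2, h3⟩ ⟨P', Q', hQ', h1', h2', h3'⟩
    refine ⟨P * P', Q * Q', mul_ne_zero hQ hQ', ovf_mul h1 h1', ovf_mul h2 h2', ?_⟩
    rw [map_mul, map_mul, ← h3, ← h3']
    ring
  · exact ⟨1, 1, one_ne_zero, ovf_one A E, ovf_one A E, by rw [one_mul]⟩
  · rintro c c' ⟨P, Q, hQ, h1, h2, h3⟩ ⟨P', Q', hQ', h1', h2', h3'⟩
    refine ⟨P * Q' + P' * Q, Q * Q', mul_ne_zero hQ hQ', ovf_add (ovf_mul h1 h2') (ovf_mul h1' h2),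
      ovf_mul h2 h2', ?_⟩
    rw [map_add, map_mul, map_mul, map_mul, ← h3, ← h3']
    ring
  · exact ⟨0, 1, one_ne_zero, ovf_zero A E, ovf_one A E, by rw [zero_mul, map_zero]⟩
  · rintro c ⟨P, Q, hQ, h1, h2, h3⟩
    refine ⟨-P, Q, hQ, fun j => ?_, h2, ?_⟩
    · rw [← ovf_mem, coeff_neg]
      exact neg_mem (ovf_mem.2 (h1 j))
    · rw [map_neg, ← h3, neg_mul]
  · rintro c ⟨P, Q, hQ, h1, h2, h3⟩
    by_cases hP : P = 0
    · have hc : c = 0 := by
        rw [hP, map_zero] at h3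
        exact (mul_eq_zero.1 h3).resolve_right (halg Q hQ)
      rw [hc, inv_zero]
      exact ⟨0, 1, one_ne_zero, ovf_zero A E, ovf_one A E, by rw [zero_mul, map_zero]⟩
    · have hc : c ≠ 0 := by
        rintro rfl
        rw [zero_mul] at h3
        exact halg P hP h3.symm
      refine ⟨Q, P, hP, h2, h1, ?_⟩
      rw [← h3, ← mul_assoc, inv_mul_cancel₀ hc, one_mul]

end Pool.Agent.Helper60.FF
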